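import Pool.Agent.KS6_98.ChernoffSG

/-!
# Chernoff's density is strongly log-concave

`airy` is the Airy function, `gGroeneboom` is Groeneboom's function `g`, the inverse Fourier
transform of `2^{1/3} / Ai(i 2^{-1/3} λ)`, and `chernoffDensity t = (1/2) g(t) g(-t)` is
Groeneboom's formula (1985, 1989) for the density of `argmax_t (W(t) - t^2)`.

The proof (no numerics): `Ai(z) / (Ai(0) (1 + z/a))`, with `-a` a zero of `Ai`, is a locally uniform
limit of polynomials with only real zeros (finite factorisation on discs, Borel-Caratheodory).  Hence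
its reciprocal on the imaginary axis has a log-concave Fourier transform (limits of convolutions of
Gaussians and exponentials), division by the remaining factor `1 + z/a` makes the log-concavity
strict, and the behaviour at `-∞` (a local limit theorem on the line `Re = X^2`) gives the uniform
constant.
-/

set_option autoImplicit false

open Complex MeasureTheory Set Filter Topology

namespace Pool.Agent.Results.MP_0705dc_pr.ChernoffStrongLogConcave

/-- the Airy function, `Ai(z) = (1/2π) ∫ exp(i s^3/3 + i z s) ds` over the line `Im s = 1`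
(absolutely convergent) -/
noncomputable def airy (z : ℂ) : ℂ :=
  ((1 / (2 * Real.pi) : ℝ) : ℂ) *
    ∫ s : ℝ, cexp (I * (((s : ℂ) + I) ^ 3 / 3 + z * ((s : ℂ) + I)))

/-- Groeneboom's function
`g(t) = (1/2π) ∫ e^{-iλt} 2^{1/3} / Ai(i 2^{-1/3} λ) dλ` -/
noncomputable def gGroeneboom (t : ℝ) : ℂ :=
  ((1 / (2 * Real.pi) : ℝ) : ℂ) * ∫ l : ℝ, cexp (-(I * (l : ℂ) * (t : ℂ))) *
    ((((2 : ℝ) ^ ((1 : ℝ) / 3) : ℝ) : ℂ) / airy (I * ((((2 : ℝ) ^ (-((1 : ℝ) / 3)) : ℝ) * l : ℝ) : ℂ)))

/-- Chernoff's density by Groeneboom's formula, `f_Z(t) = (1/2) g(t) g(-t)` -/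
noncomputable def chernoffDensity (t : ℝ) : ℝ :=
  (1 / 2) * (gGroeneboom t).re * (gGroeneboom (-t)).re

/-- Chernoff's density is strongly log-concave: `f_Z = (1/2) g(t) g(-t)` (the values of `g` are
real), and for some `c > 0`, `-(log f_Z)'' ≥ c` on the whole line, and `-log f_Z - (c/2) t^2` is
convex. -/
theorem result :
    (∀ t, ((chernoffDensity t : ℝ) : ℂ) = (1 / 2) * gGroeneboom t * gGroeneboom (-t)) ∧
    ∃ c : ℝ, 0 < c ∧ (∀ t, 0 < chernoffDensity t) ∧ ContDiff ℝ 2 chernoffDensity ∧
      (∀ t, c ≤ -(iteratedDeriv 2 (fun s => Real.log (chernoffDensity s)) t)) ∧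
      ConvexOn ℝ Set.univ (fun t => -Real.log (chernoffDensity t) - c / 2 * t ^ 2) :=
  ⟨Pool.Agent.KS6_98.CH.fZ_eq, Pool.Agent.KS6_98.CH.chernoff_all⟩

end Pool.Agent.Results.MP_0705dc_pr.ChernoffStrongLogConcave
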